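import Mathlib

/-!
# Circuits with AND, OR, NOR gates and tests modulo `m`
-/

set_option autoImplicit false

namespace Pool.Agent.ALM2

/-- Gates whose inputs are indexed by `I`: the `NOR`, the `AND` and the `OR` of a set `R` of
inputs, and tests. A test `test c A` is an arbitrary Boolean function `A` of `w` linear sums modulo
`m` of its inputs, with the coefficients `c l i`. For `w = 1` these are the generalised `MOD_m`
gates. -/
inductive Gate (m w : ℕ) (I : Type) : Type
  | nor (R : Set I) : Gate m w I
  | and (R : Set I) : Gate m w I
  | or (R : Set I) : Gate m w I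
  | test (c : Fin w → I → ZMod m) (A : (Fin w → ZMod m) → Bool) : Gate m w I

namespace Gate

variable {m w : ℕ} {I : Type}

/-- The gate reads the input `i`. -/
def Reads : Gate m w I → I → Prop
  | nor R, i => i ∈ R
  | and R, i => i ∈ R
  | or R, i => i ∈ R
  | test c _, i => ∃ l, c l i ≠ 0

/-- The gate is a test. -/
def IsTest : Gate m w I → Prop
  | test _ _ => True
  | _ => False

/-- The output of the gate is true when the inputs have the values `z`. -/
def Fires [Fintype I] (z : I → Bool) : Gate m w I → Prop
  | nor R => ∀ i ∈ R, z i = false
  | and R => ∀ i ∈ R, z i = true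
  | or R => ∃ i ∈ R, z i = true
  | test c A => A (fun l => ∑ i, if z i = true then c l i else 0) = true

end Gate

/-- A circuit with `S` gates on the variables `V`. Each gate may read variables and gates of
smaller level. -/
structure Circ (m w : ℕ) (V : Type) (S : ℕ) where
  gate : Fin S → Gate m w (V ⊕ Fin S)
  level : Fin S → ℕ
  level_lt : ∀ g g', (gate g).Reads (Sum.inr g') → level g' < level g
  out : Fin S

namespace Circ

variable {m w S : ℕ} {V : Type} [Fintype V]

/-- `val` is the family of the values of the gates on the input `x`. -/
def IsRun (C : Circ m w V S) (x : V → Bool) (val : Fin S → Bool) : Prop :=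
  ∀ g, val g = true ↔ (C.gate g).Fires (Sum.elim x val)

/-- The circuit accepts `x`: the output gate has the value true. -/
def Accepts (C : Circ m w V S) (x : V → Bool) : Prop :=
  ∃ val, C.IsRun x val ∧ val C.out = true

/-- Every path that consists of gates with the property `P` has at most `d` gates. -/
def PathBound (C : Circ m w V S) (P : Fin S → Prop) (d : ℕ) : Prop :=
  ∃ lev : Fin S → ℕ, ∀ g, P g → lev g < d ∧
    ∀ g', P g' → (C.gate g).Reads (Sum.inr g') → lev g' < lev g

/-- `H` is a set of at most `s` gates `AND`, `OR` and `NOR`, and paths inside `H` have at most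
`h + 1` gates. There are at most `N` gates `AND`, `OR` and `NOR` outside of `H`, and paths of such
gates have at most `d` gates. At most `k` gates are feedback gates, that is, gates in `H` or tests
that are read by a gate outside of `H` (by a test or by an `AND`, `OR` or `NOR`). There is no
condition on the tests that are read by no gate outside of `H`. -/
structure Bounded (C : Circ m w V S) (H : Finset (Fin S)) (N d s h k : ℕ) : Prop where
  no_test : ∀ g ∈ H, ¬ (C.gate g).IsTest
  card_upper : H.card ≤ s
  card_feedback : Nat.card {g // (g ∈ H ∨ (C.gate g).IsTest) ∧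
    ∃ g' ∉ H, (C.gate g').Reads (Sum.inr g)} ≤ k
  path_upper : C.PathBound (fun g => g ∈ H) (h + 1)
  card_lower : Nat.card {g // g ∉ H ∧ ¬ (C.gate g).IsTest} ≤ N
  path_lower : C.PathBound (fun g => g ∉ H ∧ ¬ (C.gate g).IsTest) d

end Circ

end Pool.Agent.ALM2
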