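import Pool.Agent.ALM2.Runs
import Pool.Agent.ALM.Recur
import Pool.Agent.KCL.TreeCorr

/-!
# The upper part of a circuit when the lower gates have shallow decision trees
-/

set_option autoImplicit false
set_option linter.unusedSectionVars false

namespace Pool.Agent.ALM2

open Finset Pool.Agent.KCL Pool.Agent.SW Pool.Agent.Helper32.QS Pool.Agent.ALM

section closed

variable {V : Type} [Fintype V] [DecidableEq V] {q : ℕ}

lemma closed_const (hq : 1 ≤ q) (Q : Prop) : CubeClosed q fun _ : V → Bool => Q :=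
  fun _ _ _ hK => hK {⟨0, hq⟩} ⟨_, Finset.mem_singleton_self _⟩

lemma CubeClosed.congr {H H' : (V → Bool) → Prop} (h : CubeClosed q H) (h' : ∀ x, H' x ↔ H x) :
    CubeClosed q H' := by
  have : H' = H := funext fun x => propext (h' x)
  rw [this]
  exact h

/-- The values of a function with a shallow decision tree. -/
lemma closed_dt {r : ℕ} (hq : r < q) {f : (V → Bool) → Bool} (hf : DTle r f) (b : Bool) :
    CubeClosed q fun x => f x = b := by
  classical
  intro x B hB hK
  set β : ℤ := if b = true then 1 else 0 with hβ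
  let F : (V → Bool) → ℤ := fun x => (if f x = true then (1 : ℤ) else 0) + -β
  have h1 : LDR ℤ r F := (ldr_dt hf).add (ldr_const r _)
  have h2 := alt_cube h1 hq x B hB
  have hF : ∀ K : Finset (Fin q), K.Nonempty →
      F (Helper32.QS.flip x (K.biUnion B)) = 0 := by
    intro K hKn
    have h3 : f (Helper32.QS.flip x (K.biUnion B)) = b := hK K hKn
    show (if f (Helper32.QS.flip x (K.biUnion B)) = true then (1 : ℤ) else 0) + -β = 0
    rw [h3, hβ]
    ring
  rw [Finset.sum_eq_single ∅] at h2
  · have h3 : Helper32.QS.flip x ((∅ : Finset (Fin q)).biUnion B) = x := by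
      funext i
      simp [Helper32.QS.flip]
    rw [h3, Finset.card_empty, pow_zero, one_mul] at h2
    have h4 : (if f x = true then (1 : ℤ) else 0) + -β = 0 := h2
    show f x = b
    rw [hβ] at h4
    cases hfx : f x <;> cases b <;> simp_all
  · intro K _ hne
    rw [hF K (Finset.nonempty_iff_ne_empty.mpr hne), mul_zero]
  · intro h
    exact absurd (Finset.mem_univ _) h

/-- Tests of functions with shallow decision trees. -/
lemma closed_lin {I : Type} [Fintype I] {m w r : ℕ} (hm : m ≠ 0)
    (U : I → (V → Bool) → Bool) (hU : ∀ i, DTle r (U i)) (c : Fin w → I → ZMod m)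
    (A : (Fin w → ZMod m) → Bool) (hq : ZB (w * (m * r)) r m.primeFactorsList.length ≤ q)
    (b : Bool) :
    CubeClosed q fun x => A (fun l => ∑ i, if U i x = true then c l i else 0) = b := by
  intro x B hB hK
  have hld : ∀ l, LDR (ZMod m) r fun x => ∑ i, if U i x = true then c l i else 0 := by
    intro l
    refine LDR.sum univ _ fun i _ => ?_
    have h1 := (ldr_dt (R := ZMod m) (hU i)).smul (c l i)
    refine (congrArg (LDR (ZMod m) r) (funext fun x => ?_)).mp h1
    by_cases h : U i x = true <;> simp [h]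
  have hiso := noIso_of_LD (m := m) (d := r) (w := w) hm (D := q)
    (fun (l : Fin w) (x : V → Bool) => ∑ i, if U i x = true then c l i else 0) hld hq
  obtain ⟨K, hKne, hKeq⟩ := hiso x B hB
  have h1 := hK K hKne
  simp only at h1 hKeq
  show A _ = b
  rw [← h1]
  exact congrArg A hKeq.symm

end closed

namespace Circ

variable {m w S N d s h k : ℕ} {V : Type} [Fintype V]

/-- The gates of `H` and the tests that are read by gates outside of `H`. -/
def Fb (C : Circ m w V S) (H : Finset (Fin S)) (g : Fin S) : Prop :=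
  (g ∈ H ∨ (C.gate g).IsTest) ∧ ∃ g' ∉ H, (C.gate g').Reads (Sum.inr g)

/-- The gates outside of `H` that are not tests. -/
def Low (C : Circ m w V S) (H : Finset (Fin S)) (g : Fin S) : Prop :=
  g ∉ H ∧ ¬ (C.gate g).IsTest

open Classical in
/-- The constants for the feedback gates and the lower gates. -/
noncomputable def cst (C : Circ m w V S) (H : Finset (Fin S)) (v u : Fin S → Bool) :
    Fin S → Bool := fun g => if C.Fb H g then v g else u g

/-- The run when the values of the feedback gates and of the lower gates are given. -/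
noncomputable def top (C : Circ m w V S) (H : Finset (Fin S)) (v : Fin S → Bool)
    (x : V → Bool) (u : Fin S → Bool) : Fin S → Bool :=
  (C.fix (fun g => C.Fb H g ∨ C.Low H g) (C.cst H v u)).run x

/-- The values `v` of the feedback gates are correct, and the circuit accepts. -/
def Phi (C : Circ m w V S) (H : Finset (Fin S)) (v : Fin S → Bool) (x : V → Bool)
    (u : Fin S → Bool) : Prop :=
  (∀ g, C.Fb H g → ((C.gate g).Fires (Sum.elim x (C.top H v x u)) ↔ v g = true)) ∧
    C.top H v x u C.out = true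

variable {C : Circ m w V S} {H : Finset (Fin S)}

lemma low_not_fb {g : Fin S} (h : C.Low H g) : ¬ C.Fb H g := fun h2 => h2.1.elim h.1 h.2

lemma top_fb (v : Fin S → Bool) (x : V → Bool) (u : Fin S → Bool) {g : Fin S}
    (hg : C.Fb H g) : C.top H v x u g = v g := by
  unfold top
  rw [fix_run_pos C _ x (Or.inl hg)]
  exact if_pos hg

lemma top_low (v : Fin S → Bool) (x : V → Bool) (u : Fin S → Bool) {g : Fin S}
    (hg : C.Low H g) : C.top H v x u g = u g := by
  unfold top
  rw [fix_run_pos C _ x (Or.inr hg)]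
  exact if_neg (low_not_fb hg)

lemma top_other (v : Fin S → Bool) (x : V → Bool) (u : Fin S → Bool) {g : Fin S}
    (h1 : ¬ C.Fb H g) (h2 : ¬ C.Low H g) : C.top H v x u g = true ↔
      (C.gate g).Fires (Sum.elim x (C.top H v x u)) := by
  unfold top
  exact fix_run_neg C _ x (fun h => h.elim h1 h2)

variable [DecidableEq V]

/-- The value that a test takes is a closed condition. -/
lemma closed_fires {q r : ℕ} (hr : 1 ≤ r) (hm : m ≠ 0)
    (hZB : ZB (w * (m * r)) r m.primeFactorsList.length ≤ q)
    (v : Fin S → Bool) (f : Fin S → (V → Bool) → Bool) (hf : ∀ g, C.Low H g → DTle r (f g))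
    (g : Fin S) (hgH : g ∉ H) (htest : (C.gate g).IsTest) (b : Bool) :
    CubeClosed q fun x => (C.gate g).Fires (Sum.elim x (C.top H v x fun g => f g x)) ↔
      b = true := by
  classical
  -- the inputs
  let U : V ⊕ Fin S → (V → Bool) → Bool := Sum.elim (fun j x => x j) fun g' =>
    if C.Fb H g' then fun _ => v g' else if C.Low H g' then f g' else fun _ => false
  have hU : ∀ i, DTle r (U i) := by
    rintro (j | g')
    · refine DTle.mono hr (Or.inr ⟨j, fun b => ⟨b, fun x => ?_⟩⟩)
      show Function.update x j b j = b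
      rw [Function.update_self]
    · show DTle r (if C.Fb H g' then fun _ => v g' else if C.Low H g' then f g'
        else fun _ => false)
      by_cases h1 : C.Fb H g'
      · rw [if_pos h1]
        exact DTle.of_const ⟨_, fun _ => rfl⟩
      · rw [if_neg h1]
        by_cases h2 : C.Low H g'
        · rw [if_pos h2]
          exact hf g' h2
        · rw [if_neg h2]
          exact DTle.of_const ⟨_, fun _ => rfl⟩
  have hUx : ∀ x i, (C.gate g).Reads i →
      Sum.elim x (C.top H v x fun g => f g x) i = U i x := by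
    intro x i hi
    rcases i with j | g'
    · rfl
    · show C.top H v x (fun g => f g x) g' = (if C.Fb H g' then fun _ => v g' else
        if C.Low H g' then f g' else fun _ => false) x
      by_cases h1 : C.Fb H g'
      · rw [if_pos h1, top_fb v x _ h1]
      · rw [if_neg h1]
        have h2 : C.Low H g' :=
          ⟨fun h => h1 ⟨Or.inl h, g, hgH, hi⟩, fun h => h1 ⟨Or.inr h, g, hgH, hi⟩⟩
        rw [if_pos h2, top_low v x _ h2]
  cases hgate : C.gate g with
  | nor R => rw [hgate] at htest; exact absurd htest id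
  | and R => rw [hgate] at htest; exact absurd htest id
  | or R => rw [hgate] at htest; exact absurd htest id
  | test c A =>
    refine CubeClosed.congr (closed_lin hm U hU c A hZB b) fun x => ?_
    have h1 : (Gate.test c A).Fires (Sum.elim x (C.top H v x fun g => f g x)) ↔
        A (fun l => ∑ i, if U i x = true then c l i else 0) = true := by
      rw [← hgate, Gate.fires_congr _ (hUx x), hgate]
      rfl
    rw [h1]
    exact Bool.eq_iff_iff.symm

/-- The values of all inputs of the gates in `H` that are not themselves in `H`, or are feedback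
gates, are closed conditions. -/
lemma closed_value {q r : ℕ} (hq1 : 1 ≤ q) (hq2 : 2 ≤ q) (hqr : r < q) (hr : 1 ≤ r) (hm : m ≠ 0)
    (hZB : ZB (w * (m * r)) r m.primeFactorsList.length ≤ q)
    (v : Fin S → Bool) (f : Fin S → (V → Bool) → Bool) (hf : ∀ g, C.Low H g → DTle r (f g))
    (i : V ⊕ Fin S) (hi : ∀ g, i = Sum.inr g → g ∈ H → C.Fb H g) (b : Bool) :
    CubeClosed q fun x => Sum.elim x (C.top H v x fun g => f g x) i = b := by
  classical
  rcases i with j | g
  · exact CubeClosed.coord hq2 j b
  · show CubeClosed q fun x => C.top H v x (fun g => f g x) g = b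
    by_cases hfb : C.Fb H g
    · refine CubeClosed.congr (closed_const hq1 (v g = b)) fun x => ?_
      rw [top_fb v x _ hfb]
    · have hgH : g ∉ H := fun h => hfb (hi g rfl h)
      by_cases hlow : C.Low H g
      · refine CubeClosed.congr (closed_dt hqr (hf g hlow) b) fun x => ?_
        rw [top_low v x _ hlow]
      · have htest : (C.gate g).IsTest := by
          by_contra h
          exact hlow ⟨hgH, h⟩
        refine CubeClosed.congr (closed_fires hr hm hZB v f hf g hgH htest b) fun x => ?_
        rw [← top_other v x _ hfb hlow]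
        exact Bool.eq_iff_iff

/-- **The leaves.** -/
theorem leaf_corr {q r E : ℕ} (hq2 : 2 ≤ q) (hqr : r < q) (hr : 1 ≤ r) (hm : m ≠ 0)
    (hZB : ZB (w * (m * r)) r m.primeFactorsList.length ≤ q) (hC : C.Bounded H N d s h k)
    {Y : Type} [Fintype Y] (em : Y → V → Bool) (G : Y → ℝ) (hG : ∀ y, |G y| ≤ 1)
    (hB : ∀ H' : (V → Bool) → Prop, CubeClosed q H' → |∑ y, ind (H' (em y)) * G y| ≤
      (1 / 2) ^ ((need s)^[h] E) * Fintype.card Y)
    (v : Fin S → Bool) (f : Fin S → (V → Bool) → Bool) (hf : ∀ g, C.Low H g → DTle r (f g))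
    (H₀ : (V → Bool) → Prop) (hH₀ : CubeClosed q H₀) :
    |∑ y, ind (H₀ (em y) ∧ C.Phi H v (em y) fun g => f g (em y)) * G y| ≤
      2 ^ (k + 1) * ((1 / 2) ^ E * Fintype.card Y) := by
  classical
  have hq1 : 1 ≤ q := by omega
  -- the values at `y`
  let W : Y → Fin S → Bool := fun y => C.top H v (em y) fun g => f g (em y)
  -- the gates
  let G' : {g // g ∈ H} → Y → Bool := fun u y => decide ((C.gate u.1).Fires (Sum.elim (em y) (W y)))
  obtain ⟨lev, hlev⟩ := hC.path_upper
  -- the closed sets
  let 𝒮 : (Y → Prop) → Prop := fun P => ∃ H', CubeClosed q H' ∧ ∀ y, P y ↔ H' (em y)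
  have htrue : 𝒮 fun _ => True := ⟨fun _ => True, CubeClosed.true, fun _ => Iff.rfl⟩
  have hand : ∀ P Q, 𝒮 P → 𝒮 Q → 𝒮 fun y => P y ∧ Q y := by
    rintro P Q ⟨H1, h1, h1'⟩ ⟨H2, h2, h2'⟩
    exact ⟨_, h1.and h2, fun y => and_congr (h1' y) (h2' y)⟩
  have hval : ∀ (g : Fin S) (hg : g ∈ H), ¬ C.Fb H g → ∀ y, W y g = G' ⟨g, hg⟩ y := by
    intro g hg hfb y
    have h1 := top_other (C := C) (H := H) v (em y) (fun g => f g (em y)) hfb
      (fun h : C.Low H g => h.1 hg)
    refine Bool.eq_iff_iff.mpr (h1.trans ?_)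
    show _ ↔ decide _ = true
    rw [decide_eq_true_eq]
  have hform : ∀ u, HasForm 𝒮 G' (fun u => lev u.1) u := by
    intro u
    obtain ⟨σ, b, R, hR, hform⟩ := (C.gate u.1).exists_form (hC.no_test _ u.2)
    -- inputs that are gates of `H` and not feedback gates
    let good : V ⊕ Fin S → Prop := fun i => ∀ g, i = Sum.inr g → g ∈ H → C.Fb H g
    refine ⟨σ, fun y => ∀ i : {i // i ∈ R ∧ good i}, Sum.elim (em y) (W y) i.1 = b,
      univ.filter fun p => Sum.inr p.1.1 ∈ R ∧ ¬ C.Fb H p.1.1 ∧ p.2 = b, ?_, ?_, ?_⟩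
    · refine ⟨fun x => ∀ i : {i // i ∈ R ∧ good i},
        Sum.elim x (C.top H v x fun g => f g x) i.1 = b, ?_, fun y => Iff.rfl⟩
      exact CubeClosed.all fun i =>
        closed_value hq1 hq2 hqr hr hm hZB v f hf i.1 i.2.2 b
    · intro p hp
      obtain ⟨h1, h2, h3⟩ := (Finset.mem_filter.mp hp).2
      exact (hlev u.1 u.2).2 p.1.1 p.1.2 (hR _ h1)
    · intro y
      have h1 : G' u y = σ ↔ ∀ i ∈ R, Sum.elim (em y) (W y) i = b := by
        rw [← hform]
        show decide _ = σ ↔ _
        cases σ <;> simp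
      rw [h1]
      constructor
      · intro h2
        refine ⟨fun i => h2 i.1 i.2.1, fun p hp => ?_⟩
        obtain ⟨h3, h4, h5⟩ := (Finset.mem_filter.mp hp).2
        have h6 := h2 _ h3
        rw [h5]
        rw [← hval p.1.1 p.1.2 h4 y]
        exact h6
      · rintro ⟨h2, h3⟩ i hi
        by_cases hg : good i
        · exact h2 ⟨i, hi, hg⟩
        · have hg' : ∃ g, i = Sum.inr g ∧ g ∈ H ∧ ¬ C.Fb H g := by
            simp only [good] at hg
            push Not at hg
            exact hg
          obtain ⟨g, rfl, hgH, hgF⟩ := hg'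
          have h4 := h3 (⟨g, hgH⟩, b) (Finset.mem_filter.mpr ⟨Finset.mem_univ _, hi, hgF, rfl⟩)
          show W y g = b
          rw [hval g hgH hgF y]
          exact h4
  -- the bound for closed sets
  have h0 : Bd 𝒮 G G' (fun u => lev u.1) 0 ((1 / 2) ^ ((need s)^[h] E) * Fintype.card Y) := by
    rintro P ⟨H', hH', hPH⟩ T hT
    have hT0 : T = ∅ := Finset.eq_empty_of_forall_notMem fun p hp => absurd (hT p hp) (by omega)
    have h1 : ∀ y, ind (P y ∧ Lits G' T y) = ind (H' (em y)) := by
      intro y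
      refine ind_congr ?_
      rw [hT0]
      exact ⟨fun h => (hPH y).mp h.1, fun h => ⟨(hPH y).mpr h, lits_empty y⟩⟩
    simp only [h1]
    exact hB H' hH'
  have hcard : Fintype.card {g // g ∈ H} ≤ s := by
    rw [Fintype.card_coe]
    exact hC.card_upper
  have hh := bd_iter htrue hand hform hG hcard h E 0 h0
  rw [zero_add] at hh
  -- the final conjunction
  have hB0 : (0 : ℝ) ≤ (1 / 2) ^ E * Fintype.card Y := by positivity
  let F : Finset ({g // g ∈ H} × Bool) := univ.filter fun p => C.Fb H p.1.1 ∧ p.2 = v p.1.1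
  have hF : F.card ≤ k := by
    refine le_trans ?_ hC.card_feedback
    have e1 : F.card ≤ (univ.filter fun g => C.Fb H g).card := by
      refine Finset.card_le_card_of_injOn (fun p => p.1.1) ?_ ?_
      · intro p hp
        exact Finset.mem_filter.mpr ⟨Finset.mem_univ _, (Finset.mem_filter.mp hp).2.1⟩
      · intro p hp p' hp' hpp
        have h1 := (Finset.mem_filter.mp hp).2.2
        have h2 := (Finset.mem_filter.mp hp').2.2
        refine Prod.ext (Subtype.ext hpp) ?_
        rw [h1, h2]
        exact congrArg v hpp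
    refine e1.trans (le_of_eq ?_)
    rw [Nat.card_eq_fintype_card, Fintype.card_subtype]
    refine congrArg Finset.card ?_
    ext g
    rw [Finset.mem_filter, Finset.mem_filter]
    rfl
  -- the feedback tests
  let Z : (V → Bool) → Prop := fun x => ∀ g : {g // C.Fb H g ∧ g ∉ H},
    ((C.gate g.1).Fires (Sum.elim x (C.top H v x fun g => f g x)) ↔ v g.1 = true)
  have hZ : CubeClosed q Z := CubeClosed.all fun g =>
    closed_fires hr hm hZB v f hf g.1 g.2.2 (g.2.1.1.elim (fun h => absurd h g.2.2) id) (v g.1)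
  have hFl : ∀ y, (Z (em y) ∧ Lits G' F y) ↔ ∀ g, C.Fb H g →
      ((C.gate g).Fires (Sum.elim (em y) (W y)) ↔ v g = true) := by
    intro y
    have e1 : ∀ g (hg : g ∈ H), G' ⟨g, hg⟩ y = v g ↔
        ((C.gate g).Fires (Sum.elim (em y) (W y)) ↔ v g = true) := by
      intro g hg
      show decide _ = v g ↔ _
      cases v g <;> simp
    constructor
    · rintro ⟨h0, h1⟩ g hg
      by_cases hgH : g ∈ H
      · rw [← e1 g hgH]
        exact h1 (⟨g, hgH⟩, v g) (Finset.mem_filter.mpr ⟨Finset.mem_univ _, hg, rfl⟩)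
      · exact h0 ⟨g, hg, hgH⟩
    · intro h1
      refine ⟨fun g => h1 g.1 g.2.1, fun p hp => ?_⟩
      obtain ⟨h2, h3⟩ := (Finset.mem_filter.mp hp).2
      rw [h3]
      exact (e1 p.1.1 p.1.2).mpr (h1 _ h2)
  have hlevT : ∀ p : {g // g ∈ H} × Bool, lev p.1.1 < h + 1 := fun p => (hlev p.1.1 p.1.2).1
  have hH₀Z := hH₀.and hZ
  by_cases hout : C.out ∈ H ∧ ¬ C.Fb H C.out
  · have h1 := mono_bd htrue hand hform hh (insert (⟨C.out, hout.1⟩, true) F)
      (fun p _ => hlevT p) (fun y => H₀ (em y) ∧ Z (em y)) ⟨_, hH₀Z, fun _ => Iff.rfl⟩ ∅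
      fun p hp => absurd hp (Finset.notMem_empty p)
    have h2 : ∀ y, ind (H₀ (em y) ∧ C.Phi H v (em y) fun g => f g (em y)) =
        ind ((H₀ (em y) ∧ Z (em y)) ∧ Lits G' ∅ y ∧
          Lits G' (insert (⟨C.out, hout.1⟩, true) F) y) := by
      intro y
      refine ind_congr ?_
      rw [lits_insert, ← hval C.out hout.1 hout.2 y]
      have h6 := hFl y
      unfold Phi
      constructor
      · rintro ⟨h3, h4, h5⟩
        have h7 := h6.mpr h4
        exact ⟨⟨h3, h7.1⟩, lits_empty y, h5, h7.2⟩
      · rintro ⟨⟨h3, h3'⟩, _, h5, h4⟩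
        exact ⟨h3, h6.mp ⟨h3', h4⟩, h5⟩
    simp only [h2]
    refine h1.trans (mul_le_mul_of_nonneg_right ?_ hB0)
    refine pow_le_pow_right₀ (by norm_num) ?_
    exact (Finset.card_insert_le _ _).trans (by omega)
  · have hout' : ∀ g, (Sum.inr C.out : V ⊕ Fin S) = Sum.inr g → g ∈ H → C.Fb H g := by
      intro g hg hgH
      have hg' := Sum.inr_injective hg
      subst hg'
      by_contra h1
      exact hout ⟨hgH, h1⟩
    have hcl := closed_value hq1 hq2 hqr hr hm hZB v f hf (Sum.inr C.out) hout' true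
    have h1 := mono_bd htrue hand hform hh F (fun p _ => hlevT p)
      (fun y => (H₀ (em y) ∧ Z (em y)) ∧ W y C.out = true)
      ⟨_, hH₀Z.and hcl, fun _ => Iff.rfl⟩ ∅ fun p hp => absurd hp (Finset.notMem_empty p)
    have h2 : ∀ y, ind (H₀ (em y) ∧ C.Phi H v (em y) fun g => f g (em y)) =
        ind (((H₀ (em y) ∧ Z (em y)) ∧ W y C.out = true) ∧ Lits G' ∅ y ∧ Lits G' F y) := by
      intro y
      refine ind_congr ?_
      have h6 := hFl y
      unfold Phi
      constructor
      · rintro ⟨h3, h4, h5⟩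
        have h7 := h6.mpr h4
        exact ⟨⟨⟨h3, h7.1⟩, h5⟩, lits_empty y, h7.2⟩
      · rintro ⟨⟨⟨h3, h3'⟩, h5⟩, _, h4⟩
        exact ⟨h3, h6.mp ⟨h3', h4⟩, h5⟩
    simp only [h2]
    refine h1.trans (mul_le_mul_of_nonneg_right ?_ hB0)
    exact pow_le_pow_right₀ (by norm_num) (by omega)

end Circ

end Pool.Agent.ALM2
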