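import Pool.Agent.ALM2.Core
import Pool.Agent.ALM.Numbers

/-!
# Numbers
-/

set_option autoImplicit false

namespace Pool.Agent.ALM2

open Finset Pool.Agent.KCL Pool.Agent.ALM

/-- The iterated recursion. -/
lemma need_iter' (h : ℕ) : ∃ K : ℕ, ∀ (s E : ℕ) (Λ s' : ℝ), 1 ≤ Λ →
    (Nat.clog 2 (8 * s + 1) : ℝ) ≤ Λ → (s : ℝ) + 1 ≤ s' → (E : ℝ) + 1 ≤ Λ * s' →
      (((need s)^[h] E : ℕ) : ℝ) + 1 ≤ (6 * Λ) ^ K * s' ∧
      ((((need s)^[h] E : ℕ) : ℝ) + 1) ^ 2 ^ h ≤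
        (6 * Λ) ^ K * s' ^ (2 ^ h - 1) * ((E : ℝ) + 1) := by
  induction h with
  | zero =>
    refine ⟨1, fun s E Λ s' h1 h2 hss h3 => ?_⟩
    simp only [Function.iterate_zero, id_eq, pow_one, pow_zero, Nat.sub_self, mul_one]
    have hE0 : (0 : ℝ) ≤ E := Nat.cast_nonneg _
    have hs0 : (0 : ℝ) ≤ s := Nat.cast_nonneg _
    constructor <;> nlinarith
  | succ h ih =>
    obtain ⟨K, hK⟩ := ih
    refine ⟨(4 + 2 * K) * 2 ^ h + K, fun s E Λ s' h1 h2 hss h3 => ?_⟩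
    obtain ⟨i1, i2⟩ := hK s E Λ s' h1 h2 hss h3
    rw [Function.iterate_succ_apply']
    set e : ℕ := (need s)^[h] E with he
    set x : ℝ := (e : ℝ) + 1 with hx
    have hs1 : 1 ≤ s' := by
      have : (0 : ℝ) ≤ s := Nat.cast_nonneg _
      linarith
    have hx1 : 1 ≤ x := by
      have : (0 : ℝ) ≤ e := Nat.cast_nonneg _
      rw [hx]
      linarith
    set R : ℝ := (6 * Λ) ^ K with hR
    have hR1 : 1 ≤ R := one_le_pow₀ (by linarith)
    have hst := need_step s e h1 h2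
    rw [← hx] at hst
    replace hst := hst.trans (mul_le_mul_of_nonneg_left (add_le_add_right (Real.sqrt_le_sqrt
      (mul_le_mul_of_nonneg_right hss (by linarith : 0 ≤ x))) x) (by positivity))
    set y : ℝ := ((need s e : ℕ) : ℝ) + 1 with hy
    have hy0 : 0 ≤ y := by
      have : (0 : ℝ) ≤ (need s e : ℕ) := Nat.cast_nonneg _
      rw [hy]
      linarith
    -- `x` is at most `R * sqrt (s' * x)`
    have hxS : x ≤ R * Real.sqrt (s' * x) := by
      have e1 : x ^ 2 ≤ (R * Real.sqrt (s' * x)) ^ 2 := by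
        rw [mul_pow, Real.sq_sqrt (by positivity)]
        have e2 : x * x ≤ (R * s') * x := mul_le_mul_of_nonneg_right i1 (by linarith)
        have e3 : R * (s' * x) ≤ R ^ 2 * (s' * x) :=
          mul_le_mul_of_nonneg_right (by nlinarith) (by positivity)
        nlinarith
      exact le_of_sq_le_sq e1 (by positivity)
    have hS0 : 0 ≤ Real.sqrt (s' * x) := Real.sqrt_nonneg _
    have hyS : y ≤ 6 * Λ ^ 2 * R * Real.sqrt (s' * x) := by
      have e1 : Real.sqrt (s' * x) ≤ R * Real.sqrt (s' * x) := by nlinarith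
      have e2 : 3 * Λ ^ 2 * (x + Real.sqrt (s' * x)) ≤
          3 * Λ ^ 2 * (R * Real.sqrt (s' * x) + R * Real.sqrt (s' * x)) :=
        mul_le_mul_of_nonneg_left (by linarith) (by positivity)
      calc y ≤ 3 * Λ ^ 2 * (x + Real.sqrt (s' * x)) := hst
        _ ≤ _ := e2
        _ = 6 * Λ ^ 2 * R * Real.sqrt (s' * x) := by ring
    have hy2 : y ^ 2 ≤ (6 * Λ) ^ 4 * R ^ 2 * (s' * x) := by
      calc y ^ 2 ≤ (6 * Λ ^ 2 * R * Real.sqrt (s' * x)) ^ 2 := pow_le_pow_left₀ hy0 hyS 2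
        _ = 36 * Λ ^ 4 * R ^ 2 * (s' * x) := by
            rw [mul_pow, Real.sq_sqrt (by positivity)]
            ring
        _ ≤ (6 * Λ) ^ 4 * R ^ 2 * (s' * x) := by
            refine mul_le_mul_of_nonneg_right ?_ (by positivity)
            refine mul_le_mul_of_nonneg_right ?_ (by positivity)
            rw [mul_pow]
            have : 0 ≤ Λ ^ 4 := by positivity
            nlinarith
    have h6Λ : 1 ≤ 6 * Λ := by linarith
    have hK1 : (6 * Λ) ^ (4 + 2 * K) = (6 * Λ) ^ 4 * R ^ 2 := by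
      rw [pow_add, hR, ← pow_mul, mul_comm 2 K]
    have h2h : 1 ≤ 2 ^ h := Nat.one_le_two_pow
    constructor
    · -- the first bound
      have e1 : y ^ 2 ≤ ((6 * Λ) ^ (4 + 2 * K + K) * s') ^ 2 := by
        calc y ^ 2 ≤ (6 * Λ) ^ 4 * R ^ 2 * (s' * x) := hy2
          _ ≤ (6 * Λ) ^ 4 * R ^ 2 * (s' * (R * s')) := by
              refine mul_le_mul_of_nonneg_left ?_ (by positivity)
              exact mul_le_mul_of_nonneg_left i1 (by linarith)
          _ = (6 * Λ) ^ (4 + 2 * K + K) * s' ^ 2 := by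
              rw [pow_add (6 * Λ) (4 + 2 * K) K, hK1, ← hR]
              ring
          _ ≤ ((6 * Λ) ^ (4 + 2 * K + K)) ^ 2 * s' ^ 2 := by
              refine mul_le_mul_of_nonneg_right ?_ (by positivity)
              have : 1 ≤ (6 * Λ) ^ (4 + 2 * K + K) := one_le_pow₀ h6Λ
              nlinarith
          _ = _ := (mul_pow _ _ _).symm
      refine (le_of_sq_le_sq e1 (by positivity)).trans ?_
      refine mul_le_mul_of_nonneg_right (pow_le_pow_right₀ h6Λ ?_) (by linarith)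
      have : 4 + 2 * K ≤ (4 + 2 * K) * 2 ^ h := Nat.le_mul_of_pos_right _ (by omega)
      omega
    · have e1 : y ^ 2 ^ (h + 1) = (y ^ 2) ^ 2 ^ h := by
        rw [← pow_mul, pow_succ, mul_comm]
      have e2 : 2 ^ (h + 1) - 1 = 2 ^ h + (2 ^ h - 1) := by
        rw [pow_succ]
        omega
      have hE0 : (0 : ℝ) ≤ (E : ℝ) + 1 := by positivity
      calc y ^ 2 ^ (h + 1) = (y ^ 2) ^ 2 ^ h := e1
        _ ≤ ((6 * Λ) ^ 4 * R ^ 2 * (s' * x)) ^ 2 ^ h := pow_le_pow_left₀ (by positivity) hy2 _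
        _ = ((6 * Λ) ^ (4 + 2 * K)) ^ 2 ^ h * s' ^ 2 ^ h * x ^ 2 ^ h := by
            rw [← hK1, mul_pow ((6 * Λ) ^ (4 + 2 * K)), mul_pow s', mul_assoc]
        _ ≤ ((6 * Λ) ^ (4 + 2 * K)) ^ 2 ^ h * s' ^ 2 ^ h *
            ((6 * Λ) ^ K * s' ^ (2 ^ h - 1) * ((E : ℝ) + 1)) :=
            mul_le_mul_of_nonneg_left i2 (by positivity)
        _ = (6 * Λ) ^ ((4 + 2 * K) * 2 ^ h + K) * s' ^ (2 ^ (h + 1) - 1) * ((E : ℝ) + 1) := by
            rw [e2, pow_add (6 * Λ) ((4 + 2 * K) * 2 ^ h) K, pow_mul (6 * Λ) (4 + 2 * K), pow_add s']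
            generalize (6 * Λ) ^ (4 + 2 * K) = Z1
            generalize (6 * Λ) ^ K = Z2
            ring

end Pool.Agent.ALM2
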